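import Pool.Agent.W745.RW.Stm

/-! Project RW (helper745): a Rellich lemma on a ball, from the smoothing estimate. -/
set_option autoImplicit false
open MeasureTheory Filter Topology Complex
open scoped ContDiff Convolution

namespace Pool.Agent.W329.RW

open Pool.Agent.W745.RW

/-- cutoff -/
lemma exists_cut (c : ℂ) {r2 r : ℝ} (h2 : 0 < r2) (h : r2 < r) :
    ∃ ζ : ℂ → ℝ, ContDiff ℝ ∞ ζ ∧ HasCompactSupport ζ ∧ tsupport ζ ⊆ Metric.ball c r ∧
      ∀ z ∈ Metric.ball c r2, ζ =ᶠ[𝓝 z] fun _ => (1 : ℝ) := by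
  let ζ : ContDiffBump c := ⟨r2, (r2 + r) / 2, h2, by linarith⟩
  refine ⟨ζ, ζ.contDiff, ζ.hasCompactSupport, ?_, ?_⟩
  · rw [ζ.tsupport_eq]
    exact Metric.closedBall_subset_ball (by change (r2 + r) / 2 < r; linarith)
  · intro z hz
    filter_upwards [Metric.isOpen_ball.mem_nhds hz] with w hw
    exact ζ.one_of_mem_closedBall (Metric.ball_subset_closedBall hw)

lemma contDiff_cut {c : ℂ} {r : ℝ} {ζ : ℂ → ℝ} (hζ : ContDiff ℝ ∞ ζ)
    (hs : tsupport ζ ⊆ Metric.ball c r) {χ : ℂ → ℂ} (hχ : ContDiffOn ℝ ∞ χ (Metric.ball c r)) :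
    ContDiff ℝ ∞ (fun z => ζ z • χ z) := by
  rw [contDiff_iff_contDiffAt]
  intro z
  by_cases hz : z ∈ Metric.ball c r
  · exact (hζ.contDiffAt).smul (hχ.contDiffAt (Metric.isOpen_ball.mem_nhds hz))
  · have hz' : z ∉ tsupport ζ := fun h => hz (hs h)
    have h0 : (fun z => ζ z • χ z) =ᶠ[𝓝 z] fun _ => (0 : ℂ) := by
      have := notMem_tsupport_iff_eventuallyEq.1 hz'
      filter_upwards [this] with w hw
      simp [hw]
    exact contDiffAt_const.congr_of_eventuallyEq h0

/-- mollification of a smooth compactly supported function -/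
noncomputable def mol (ρ : ℂ → ℝ) (X : ℂ → ℂ) (z : ℂ) : ℂ := ∫ w, ρ w • X (z - w)

lemma mol_eq (ρ : ℂ → ℝ) (X : ℂ → ℂ) :
    mol ρ X = (ρ ⋆[ContinuousLinearMap.lsmul ℝ ℝ, volume] X) := by
  funext z
  simp [mol, convolution]

lemma mol_contDiff {ρ : ℂ → ℝ} (hρ : ContDiff ℝ ∞ ρ) {X : ℂ → ℂ} (hX : ContDiff ℝ ∞ X)
    (hXc : HasCompactSupport X) : ContDiff ℝ ∞ (mol ρ X) := by
  rw [mol_eq]
  exact hXc.contDiff_convolution_right _ hρ.continuous.locallyIntegrable hX

lemma mol_fderiv {ρ : ℂ → ℝ} (hρ : ContDiff ℝ ∞ ρ) {X : ℂ → ℂ} (hX : ContDiff ℝ ∞ X)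
    (hXc : HasCompactSupport X) (p e : ℂ) :
    fderiv ℝ (mol ρ X) p e = ∫ y, ρ (p - y) • fderiv ℝ X y e := by
  have h1 := hXc.hasFDerivAt_convolution_right (ContinuousLinearMap.lsmul ℝ ℝ)
    (hρ.continuous.locallyIntegrable (μ := volume)) (hX.of_le (by norm_cast)) p
  rw [mol_eq, h1.fderiv]
  rw [convolution_precompR_apply _ hρ.continuous.locallyIntegrable (hXc.fderiv (𝕜 := ℝ))
    (hX.continuous_fderiv (by simp))]
  rw [convolution_eq_swap]
  simp

/-- the mean value formula on a segment -/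
lemma seg_formula {G : ℂ → ℂ} (hG : ContDiff ℝ ∞ G) (c z : ℂ) :
    G z - G c = ∫ t in (0:ℝ)..1, fderiv ℝ G (c + t • (z - c)) (z - c) := by
  have hd : ∀ t : ℝ, HasDerivAt (fun t : ℝ => G (c + t • (z - c)))
      (fderiv ℝ G (c + t • (z - c)) (z - c)) t := by
    intro t
    have h1 : HasDerivAt (fun t : ℝ => c + t • (z - c)) (z - c) t := by
      simpa using ((hasDerivAt_id t).smul_const (z - c)).const_add c
    exact ((hG.differentiable (by simp)) _).hasFDerivAt.comp_hasDerivAt t h1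
  have hcont : Continuous (fun t : ℝ => fderiv ℝ G (c + t • (z - c)) (z - c)) := by
    have h1 : Continuous (fderiv ℝ G) := hG.continuous_fderiv (by simp)
    exact (h1.comp (by fun_prop)).clm_apply continuous_const
  rw [intervalIntegral.integral_eq_sub_of_hasDerivAt (fun t _ => hd t)
    (hcont.intervalIntegrable _ _)]
  simp

lemma fderiv_decomp (L : ℂ →L[ℝ] ℂ) (v : ℂ) : L v = v.re • L 1 + v.im • L I := by
  have h : v = v.re • (1 : ℂ) + v.im • I := by
    apply Complex.ext <;> simp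
  conv_lhs => rw [h]
  rw [map_add, map_smul, map_smul]

lemma seg_mem {c z : ℂ} {r1 : ℝ} (hz : z ∈ Metric.closedBall c r1) {t : ℝ} (ht : t ∈ Set.Icc (0:ℝ) 1) :
    c + t • (z - c) ∈ Metric.closedBall c r1 := by
  rw [Metric.mem_closedBall, dist_eq_norm] at *
  have : c + t • (z - c) - c = t • (z - c) := by ring
  rw [this, norm_smul, Real.norm_eq_abs, abs_of_nonneg ht.1]
  calc t * ‖z - c‖ ≤ 1 * ‖z - c‖ := by gcongr; exact ht.2
    _ ≤ r1 := by rw [one_mul]; exact hz

theorem re (hRa : SRa) : SRe := by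
  intro c r χ hχ hC hnull K hK hKb δ hδ
  rcases le_or_gt r 0 with hr | hr
  · have hKe : K = ∅ := by
      rw [Metric.ball_eq_empty.2 hr] at hKb
      exact Set.subset_empty_iff.1 hKb
    subst hKe
    exact Eventually.of_forall fun n => ⟨0, by simpa using hδ.le⟩
  obtain ⟨r1, ⟨hr1, hr1r⟩, hK1⟩ := exists_pos_lt_subset_ball hr hK.isClosed hKb
  have hK1b : Metric.closedBall c r1 ⊆ Metric.ball c r := Metric.closedBall_subset_ball hr1r
  obtain ⟨K', hK'c, hK'b, hRa'⟩ := hRa c r _ (isCompact_closedBall c r1) hK1b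
  obtain ⟨C0, hC0⟩ := hC K' hK'c hK'b
  obtain ⟨ρ, hρ, hρc, hρK, hest⟩ := hRa' (δ / (8 * (|C0| + 1))) (by positivity)
  obtain ⟨r2, ⟨hr2, hr2r⟩, hK2⟩ := exists_pos_lt_subset_ball hr hK'c.isClosed hK'b
  obtain ⟨ζ, hζ, hζc, hζs, hζ1⟩ := exists_cut c hr2 hr2r
  obtain ⟨X, hXdef⟩ : ∃ X : ℕ → ℂ → ℂ, X = fun n z => ζ z • χ n z := ⟨_, rfl⟩
  have hX : ∀ n, ContDiff ℝ ∞ (X n) := fun n => by
    rw [hXdef]; exact contDiff_cut hζ hζs (hχ n)
  have hXc : ∀ n, HasCompactSupport (X n) := fun n => by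
    rw [hXdef]; exact hζc.smul_right
  have hXχ : ∀ n, ∀ z ∈ K', X n =ᶠ[𝓝 z] χ n := by
    intro n z hz
    filter_upwards [hζ1 z (hK2 hz)] with w hw
    simp [hXdef, hw]
  have hXv : ∀ n, ∀ z ∈ K', X n z = χ n z := fun n z hz => (hXχ n z hz).eq_of_nhds
  have hXd : ∀ n, ∀ z ∈ K', fderiv ℝ (X n) z = fderiv ℝ (χ n) z :=
    fun n z hz => (hXχ n z hz).fderiv_eq
  -- ρ (p - y) vanishes off K'
  have hρ0 : ∀ p ∈ Metric.closedBall c r1, ∀ y, y ∉ K' → ρ (p - y) = 0 := by
    intro p hp y hy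
    by_contra h
    apply hy
    have := hρK p hp (p - y) (subset_tsupport _ h)
    simpa using this
  -- the mollification
  have hG : ∀ n, ∀ z ∈ Metric.closedBall c r1,
      ∫ w, (ρ w : ℂ) * χ n (z - w) = mol ρ (X n) z := by
    intro n z hz
    unfold mol
    apply integral_congr_ae
    refine Eventually.of_forall fun w => ?_
    dsimp only
    by_cases hw : ρ w = 0
    · simp [hw]
    · rw [hXv n _ (hρK z hz w (subset_tsupport _ hw)), Complex.real_smul]
  have hTF : ∀ p ∈ Metric.closedBall c r1, TF (Metric.ball c r) (fun y => ρ (p - y)) := by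
    intro p hp
    refine ⟨hρ.comp (contDiff_const.sub contDiff_id), HasCompactSupport.intro hK'c (hρ0 p hp), ?_⟩
    refine (closure_minimal ?_ hK'c.isClosed).trans hK'b
    intro y hy
    by_contra h
    exact hy (hρ0 p hp y h)
  have hD : ∀ n, ∀ p ∈ Metric.closedBall c r1, ∀ e, fderiv ℝ (mol ρ (X n)) p e =
      ∫ y, ((ρ (p - y) : ℝ) : ℂ) * fderiv ℝ (χ n) y e := by
    intro n p hp e
    rw [mol_fderiv hρ (hX n) (hXc n)]
    apply integral_congr_ae
    refine Eventually.of_forall fun y => ?_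
    dsimp only
    by_cases hy : y ∈ K'
    · rw [hXd n y hy, Complex.real_smul]
    · simp [hρ0 p hp y hy]
  have hD1 : ∀ p ∈ Metric.closedBall c r1,
      Tendsto (fun n => fderiv ℝ (mol ρ (X n)) p 1) atTop (𝓝 0) := by
    intro p hp
    have h := (hnull _ (hTF p hp)).1
    exact Tendsto.congr (fun n => (hD n p hp 1).symm) h
  have hDI : ∀ p ∈ Metric.closedBall c r1,
      Tendsto (fun n => fderiv ℝ (mol ρ (X n)) p I) atTop (𝓝 0) := by
    intro p hp
    have h := (hnull _ (hTF p hp)).2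
    exact Tendsto.congr (fun n => (hD n p hp I).symm) h
  obtain ⟨M, hM⟩ := hρ.continuous.bounded_above_of_compact_support hρc
  have hM0 : 0 ≤ M := (norm_nonneg _).trans (hM 0)
  obtain ⟨B, hBdef⟩ : ∃ B : ℝ, B = M * (volume.real K' + |C0|) := ⟨_, rfl⟩
  have hB0 : 0 ≤ B := by rw [hBdef]; positivity
  have hcontX : ∀ n, ∀ e : ℂ, Continuous (fun y => fderiv ℝ (X n) y e) := fun n e =>
    ((hX n).continuous_fderiv (by simp)).clm_apply continuous_const
  have hbd : ∀ᶠ n in atTop, ∀ p ∈ Metric.closedBall c r1, ∀ e : ℂ, (e = 1 ∨ e = I) →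
      ‖fderiv ℝ (mol ρ (X n)) p e‖ ≤ B := by
    filter_upwards [hC0] with n hn p hp e he
    rw [mol_fderiv hρ (hX n) (hXc n)]
    have hcont : Continuous (fun y => M * (1 + (‖fderiv ℝ (X n) y 1‖ ^ 2 + ‖fderiv ℝ (X n) y I‖ ^ 2))) := by
      have h1 := hcontX n 1
      have h2 := hcontX n I
      fun_prop
    have hint : IntegrableOn (fun y => M * (1 + (‖fderiv ℝ (X n) y 1‖ ^ 2 + ‖fderiv ℝ (X n) y I‖ ^ 2))) K' :=
      hcont.continuousOn.integrableOn_compact hK'c
    have hle := norm_integral_le_of_norm_le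
      (f := fun y => ρ (p - y) • fderiv ℝ (X n) y e)
      (g := K'.indicator (fun y => M * (1 + (‖fderiv ℝ (X n) y 1‖ ^ 2 + ‖fderiv ℝ (X n) y I‖ ^ 2))))
      (μ := volume) (hint.integrable_indicator hK'c.measurableSet) ?_
    · refine hle.trans ?_
      rw [integral_indicator hK'c.measurableSet, integral_const_mul]
      have hsq : Continuous (fun y => (‖fderiv ℝ (X n) y 1‖ ^ 2 + ‖fderiv ℝ (X n) y I‖ ^ 2)) := by
        have h1 := hcontX n 1
        have h2 := hcontX n I
        fun_prop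
      have hi1 : Integrable (fun _ : ℂ => (1 : ℝ)) (volume.restrict K') :=
        (continuous_const (y := (1 : ℝ))).continuousOn.integrableOn_compact hK'c
      have hi2 : Integrable (fun y => (‖fderiv ℝ (X n) y 1‖ ^ 2 + ‖fderiv ℝ (X n) y I‖ ^ 2))
          (volume.restrict K') := hsq.continuousOn.integrableOn_compact hK'c
      rw [integral_add hi1 hi2]
      have e1 : ∫ y in K', (‖fderiv ℝ (X n) y 1‖ ^ 2 + ‖fderiv ℝ (X n) y I‖ ^ 2) =
          ∫ z in K', (‖dx (χ n) z‖ ^ 2 + ‖dy (χ n) z‖ ^ 2) := by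
        apply setIntegral_congr_fun hK'c.measurableSet
        intro y hy
        simp only [dx, dy]
        rw [hXd n y hy]
      rw [e1, hBdef]
      have e2 : ∫ y in K', (1 : ℝ) = volume.real K' := by simp
      rw [e2]
      gcongr
      exact hn.trans (le_abs_self _)
    · refine Eventually.of_forall fun y => ?_
      by_cases hy : y ∈ K'
      · rw [Set.indicator_of_mem hy, norm_smul]
        have h3 : ‖fderiv ℝ (X n) y e‖ ≤ 1 + (‖fderiv ℝ (X n) y 1‖ ^ 2 + ‖fderiv ℝ (X n) y I‖ ^ 2) := by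
          rcases he with rfl | rfl
          · nlinarith [sq_nonneg (‖fderiv ℝ (X n) y 1‖ - 1), sq_nonneg (‖fderiv ℝ (X n) y I‖),
              sq_nonneg (‖fderiv ℝ (X n) y 1‖)]
          · nlinarith [sq_nonneg (‖fderiv ℝ (X n) y I‖ - 1), sq_nonneg (‖fderiv ℝ (X n) y 1‖),
              sq_nonneg (‖fderiv ℝ (X n) y I‖)]
        exact mul_le_mul (hM _) h3 (norm_nonneg _) hM0
      · rw [Set.indicator_of_notMem hy, hρ0 p hp y hy]
        simp
  have hmolc : ∀ n, ContDiff ℝ ∞ (mol ρ (X n)) := fun n => mol_contDiff hρ (hX n) (hXc n)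
  have hbdv : ∀ᶠ n in atTop, ∀ z ∈ Metric.closedBall c r1, ∀ p ∈ Metric.closedBall c r1,
      ‖fderiv ℝ (mol ρ (X n)) p (z - c)‖ ≤ 2 * r1 * B := by
    filter_upwards [hbd] with n hn z hz p hp
    have hv : ‖z - c‖ ≤ r1 := by simpa [dist_eq_norm] using hz
    rw [fderiv_decomp]
    refine (norm_add_le _ _).trans ?_
    rw [norm_smul, norm_smul, Real.norm_eq_abs, Real.norm_eq_abs]
    have h1 := hn p hp 1 (Or.inl rfl)
    have h2 := hn p hp I (Or.inr rfl)
    have h3 : |(z - c).re| ≤ r1 := (Complex.abs_re_le_norm _).trans hv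
    have h4 : |(z - c).im| ≤ r1 := (Complex.abs_im_le_norm _).trans hv
    have h5 := mul_le_mul h3 h1 (norm_nonneg _) hr1.le
    have h6 := mul_le_mul h4 h2 (norm_nonneg _) hr1.le
    linarith
  have hlimv : ∀ z : ℂ, ∀ p ∈ Metric.closedBall c r1,
      Tendsto (fun n => fderiv ℝ (mol ρ (X n)) p (z - c)) atTop (𝓝 0) := by
    intro z p hp
    have h := ((hD1 p hp).const_smul ((z - c).re)).add ((hDI p hp).const_smul ((z - c).im))
    simp only [smul_zero, add_zero] at h
    exact Tendsto.congr (fun n => (fderiv_decomp _ _).symm) h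
  have hlimz : ∀ z ∈ Metric.closedBall c r1,
      Tendsto (fun n => mol ρ (X n) z - mol ρ (X n) c) atTop (𝓝 0) := by
    intro z hz
    have h := intervalIntegral.tendsto_integral_filter_of_dominated_convergence
      (F := fun n t => fderiv ℝ (mol ρ (X n)) (c + t • (z - c)) (z - c)) (f := fun _ => (0:ℂ))
      (l := atTop) (μ := volume) (a := (0:ℝ)) (b := 1) (fun _ => 2 * r1 * B) ?_ ?_ ?_ ?_
    · simp only [intervalIntegral.integral_zero] at h
      exact Tendsto.congr (fun n => (seg_formula (hmolc n) c z).symm) h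
    · refine Eventually.of_forall fun n => ?_
      have h1 : Continuous (fderiv ℝ (mol ρ (X n))) := (hmolc n).continuous_fderiv (by simp)
      exact ((h1.comp (by fun_prop)).clm_apply continuous_const).aestronglyMeasurable
    · filter_upwards [hbdv] with n hn
      refine Eventually.of_forall fun t ht => ?_
      rw [Set.uIoc_of_le zero_le_one] at ht
      exact hn z hz _ (seg_mem hz ⟨ht.1.le, ht.2⟩)
    · exact intervalIntegrable_const
    · refine Eventually.of_forall fun t ht => ?_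
      rw [Set.uIoc_of_le zero_le_one] at ht
      exact hlimv z _ (seg_mem hz ⟨ht.1.le, ht.2⟩)
  have hbdz : ∀ᶠ n in atTop, ∀ z ∈ Metric.closedBall c r1,
      ‖mol ρ (X n) z - mol ρ (X n) c‖ ≤ 2 * r1 * B := by
    filter_upwards [hbdv] with n hn z hz
    rw [seg_formula (hmolc n) c z]
    have := intervalIntegral.norm_integral_le_of_norm_le_const (a := (0:ℝ)) (b := 1)
      (f := fun t => fderiv ℝ (mol ρ (X n)) (c + t • (z - c)) (z - c)) (C := 2 * r1 * B) ?_
    · simpa using this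
    · intro t ht
      rw [Set.uIoc_of_le zero_le_one] at ht
      exact hn z hz _ (seg_mem hz ⟨ht.1.le, ht.2⟩)
  have hfin : Tendsto (fun n => ∫ z in Metric.closedBall c r1, ‖mol ρ (X n) z - mol ρ (X n) c‖ ^ 2)
      atTop (𝓝 0) := by
    have h := tendsto_integral_filter_of_dominated_convergence (l := atTop)
      (F := fun n z => ‖mol ρ (X n) z - mol ρ (X n) c‖ ^ 2) (f := fun _ => (0:ℝ))
      (μ := volume.restrict (Metric.closedBall c r1)) (fun _ => (2 * r1 * B) ^ 2) ?_ ?_ ?_ ?_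
    · simpa using h
    · refine Eventually.of_forall fun n => ?_
      have h1 := (hmolc n).continuous
      exact (Continuous.aestronglyMeasurable (by fun_prop))
    · filter_upwards [hbdz] with n hn
      refine (ae_restrict_iff' measurableSet_closedBall).2 (Eventually.of_forall fun z hz => ?_)
      rw [Real.norm_eq_abs, abs_of_nonneg (by positivity)]
      exact pow_le_pow_left₀ (norm_nonneg _) (hn z hz) 2
    · exact (continuous_const (y := ((2 * r1 * B) ^ 2 : ℝ))).continuousOn.integrableOn_compact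
        (isCompact_closedBall _ _)
    · refine (ae_restrict_iff' measurableSet_closedBall).2 (Eventually.of_forall fun z hz => ?_)
      have := ((hlimz z hz).norm.pow 2)
      simpa using this
  have hev : ∀ᶠ n in atTop,
      ∫ z in Metric.closedBall c r1, ‖mol ρ (X n) z - mol ρ (X n) c‖ ^ 2 < δ / 8 :=
    hfin.eventually_lt_const (by positivity)
  filter_upwards [hev, hC0] with n h1 h2
  refine ⟨mol ρ (X n) c, ?_⟩
  have h3 := hest (χ n) (hχ n)
  have h4 : ∫ z in Metric.closedBall c r1, ‖χ n z - mol ρ (X n) z‖ ^ 2 ≤ δ / 8 := by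
    have e : ∫ z in Metric.closedBall c r1, ‖χ n z - mol ρ (X n) z‖ ^ 2 =
        ∫ z in Metric.closedBall c r1, ‖χ n z - ∫ w, (ρ w : ℂ) * χ n (z - w)‖ ^ 2 := by
      apply setIntegral_congr_fun measurableSet_closedBall
      intro z hz
      dsimp only
      rw [hG n z hz]
    rw [e]
    refine h3.trans ?_
    have h5 : δ / (8 * (|C0| + 1)) * ∫ z in K', (‖dx (χ n) z‖ ^ 2 + ‖dy (χ n) z‖ ^ 2) ≤
        δ / (8 * (|C0| + 1)) * (|C0| + 1) := by
      gcongr
      exact h2.trans ((le_abs_self _).trans (by linarith))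
    refine h5.trans (le_of_eq ?_)
    have : |C0| + 1 ≠ 0 := by positivity
    field_simp
  have hχc : ContinuousOn (χ n) (Metric.closedBall c r1) := (hχ n).continuousOn.mono hK1b
  have hmc : ContinuousOn (mol ρ (X n)) (Metric.closedBall c r1) := (hmolc n).continuous.continuousOn
  have i1 : IntegrableOn (fun z => ‖χ n z - mol ρ (X n) c‖ ^ 2) (Metric.closedBall c r1) :=
    ((hχc.sub continuousOn_const).norm.pow 2).integrableOn_compact (isCompact_closedBall _ _)
  have i2 : IntegrableOn (fun z => ‖χ n z - mol ρ (X n) z‖ ^ 2) (Metric.closedBall c r1) :=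
    ((hχc.sub hmc).norm.pow 2).integrableOn_compact (isCompact_closedBall _ _)
  have i3 : IntegrableOn (fun z => ‖mol ρ (X n) z - mol ρ (X n) c‖ ^ 2) (Metric.closedBall c r1) :=
    ((hmc.sub continuousOn_const).norm.pow 2).integrableOn_compact (isCompact_closedBall _ _)
  have s1 : ∫ z in K, ‖χ n z - mol ρ (X n) c‖ ^ 2 ≤
      ∫ z in Metric.closedBall c r1, ‖χ n z - mol ρ (X n) c‖ ^ 2 := by
    apply setIntegral_mono_set i1
    · exact Eventually.of_forall fun z => by positivity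
    · exact (hK1.trans Metric.ball_subset_closedBall).eventuallyLE
  have s2 : ∫ z in Metric.closedBall c r1, ‖χ n z - mol ρ (X n) c‖ ^ 2 ≤
      ∫ z in Metric.closedBall c r1, (2 * ‖χ n z - mol ρ (X n) z‖ ^ 2 +
        2 * ‖mol ρ (X n) z - mol ρ (X n) c‖ ^ 2) := by
    apply setIntegral_mono i1 ((i2.const_mul 2).add (i3.const_mul 2))
    intro z
    show ‖χ n z - mol ρ (X n) c‖ ^ 2 ≤ 2 * ‖χ n z - mol ρ (X n) z‖ ^ 2 +
        2 * ‖mol ρ (X n) z - mol ρ (X n) c‖ ^ 2
    have hn : ‖χ n z - mol ρ (X n) c‖ ≤ ‖χ n z - mol ρ (X n) z‖ + ‖mol ρ (X n) z - mol ρ (X n) c‖ := by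
      have := norm_add_le (χ n z - mol ρ (X n) z) (mol ρ (X n) z - mol ρ (X n) c)
      simpa using this
    have := pow_le_pow_left₀ (norm_nonneg _) hn 2
    nlinarith [sq_nonneg (‖χ n z - mol ρ (X n) z‖ - ‖mol ρ (X n) z - mol ρ (X n) c‖)]
  have s3 : ∫ z in Metric.closedBall c r1, (2 * ‖χ n z - mol ρ (X n) z‖ ^ 2 +
        2 * ‖mol ρ (X n) z - mol ρ (X n) c‖ ^ 2) =
      2 * (∫ z in Metric.closedBall c r1, ‖χ n z - mol ρ (X n) z‖ ^ 2) +
        2 * ∫ z in Metric.closedBall c r1, ‖mol ρ (X n) z - mol ρ (X n) c‖ ^ 2 := by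
    rw [integral_add (i2.const_mul 2) (i3.const_mul 2), integral_const_mul, integral_const_mul]
  linarith

end Pool.Agent.W329.RW
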